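import Pool.Agent.W84.G.Defs2

/-!
# From the order to the polynomial `a n^2 + b n + c` (task G4-FINAL, helper193)
-/

set_option autoImplicit false

namespace Pool.Agent.W193.G

open Finset Filter
open Pool.Agent.H376R2.MR
open Pool.Agent.W78.GT (Qp Tr NT tri)
open Pool.Agent.W84.G

theorem lam_mul' {m n : ℕ} (hm : m ≠ 0) (hn : n ≠ 0) : lam (m * n) = lam m * lam n := by
  unfold lam
  rw [ArithmeticFunction.cardFactors_mul hm hn, pow_add]

theorem lam_sq (m : ℕ) : lam m * lam m = 1 := by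
  unfold lam
  rw [← mul_pow]
  norm_num

theorem lam_pm (m : ℕ) : lam m = 1 ∨ lam m = -1 := by
  have h := lam_sq m
  exact mul_self_eq_one_iff.1 h

theorem transfer {a b c : ℤ} {an q : ℕ} (ha : (an : ℤ) = a) (han : 1 ≤ an) (haq : an ∣ q)
    {e₁ e₂ : ℤ} (S0 : ℕ) {d n d' : ℕ} (h : (d : ℤ) * d' = Qp b (a * c) n) (hn : 1 ≤ n)
    (hR : R4 q (e₁ * lam an) e₂ (d, (n : ℤ), d')) (hk : ∀ k, k ^ 2 ∣ d * d' → k ≤ S0) :
    ∃ n' d1 : ℕ, n = an * n' ∧ d = an * d1 ∧ 1 ≤ n' ∧ 1 ≤ d1 ∧ 1 ≤ d' ∧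
      (d1 : ℤ) * d' = a * (n' : ℤ) ^ 2 + b * n' + c ∧ lam d1 = e₁ ∧ lam d' = e₂ ∧
      ∀ k, k ^ 2 ∣ d1 * d' → k ≤ S0 := by
  have hdd : d * d' ≠ 0 := by
    intro h0
    have := hk (S0 + 1) (by rw [h0]; exact dvd_zero _)
    omega
  have hd0 : d ≠ 0 := fun h0 => hdd (by rw [h0, zero_mul])
  have hd0' : d' ≠ 0 := fun h0 => hdd (by rw [h0, mul_zero])
  obtain ⟨r1, r2, r3, r4⟩ := hR
  simp only at r1 r2 r3 r4
  have hqn : q ∣ n := by exact_mod_cast r1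
  obtain ⟨n', hn'⟩ := haq.trans hqn
  have hn0 : 1 ≤ n' := by
    rcases Nat.eq_zero_or_pos n' with h0 | h0
    · rw [h0] at hn'
      omega
    · exact h0
  have haz : (an : ℤ) ≠ 0 := by
    have : (1 : ℤ) ≤ an := by exact_mod_cast han
    omega
  have hf : (d : ℤ) * d' = an * (a * (n' : ℤ) ^ 2 + b * n' + c) := by
    rw [h, hn']
    unfold Qp
    rw [← ha]
    push_cast
    ring
  have hcop : Nat.Coprime an d' := (Nat.Coprime.coprime_dvd_right haq r2).symm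
  have had : an ∣ d := by
    have h1 : (an : ℤ) ∣ ((d * d' : ℕ) : ℤ) := by
      push_cast
      rw [hf]
      exact dvd_mul_right _ _
    exact hcop.dvd_of_dvd_mul_right (by exact_mod_cast h1)
  obtain ⟨d1, hd1⟩ := had
  have hd10 : 1 ≤ d1 := by
    rcases Nat.eq_zero_or_pos d1 with h0 | h0
    · rw [h0, mul_zero] at hd1
      exact absurd hd1 hd0
    · exact h0
  refine ⟨n', d1, hn', hd1, hn0, hd10, Nat.one_le_iff_ne_zero.2 hd0', ?_, ?_, r4, ?_⟩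
  · apply mul_left_cancel₀ haz
    rw [← hf, hd1]
    push_cast
    ring
  · rw [hd1, lam_mul' (by omega) (by omega)] at r3
    have h1 := lam_sq an
    calc lam d1 = (lam an * lam an) * lam d1 := by rw [h1, one_mul]
      _ = lam an * (lam an * lam d1) := by ring
      _ = lam an * (e₁ * lam an) := by rw [r3]
      _ = e₁ * (lam an * lam an) := by ring
      _ = e₁ := by rw [h1, mul_one]
  · intro k hk'
    refine hk k (hk'.trans ?_)
    rw [hd1, mul_assoc]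
    exact dvd_mul_left _ _

theorem analytic (an : ℕ) (han : 1 ≤ an) (C ε : ℝ) (hC : 0 ≤ C) (hε : 0 < ε) : ∃ N₀ : ℕ, ∀ N : ℕ,
    N₀ ≤ N → (N : ℝ) / Real.log N ^ (C + ε) ≤
      ((an * N : ℕ) : ℝ) / Real.log ((an * N : ℕ) : ℝ) ^ (C + ε / 2) := by
  have hlog : Tendsto (fun N : ℕ => Real.log N) atTop atTop :=
    Real.tendsto_log_atTop.comp tendsto_natCast_atTop_atTop
  have h1 : ∀ᶠ N : ℕ in atTop, (2 : ℝ) ^ (C + ε / 2) ≤ Real.log N ^ (ε / 2) :=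
    ((tendsto_rpow_atTop (half_pos hε)).comp hlog).eventually_ge_atTop _
  have h2 : ∀ᶠ N : ℕ in atTop, max 1 (Real.log an) ≤ Real.log N := hlog.eventually_ge_atTop _
  have h3 : ∀ᶠ N : ℕ in atTop, 1 ≤ N := eventually_ge_atTop 1
  obtain ⟨N₀, hN₀⟩ := eventually_atTop.1 (h1.and (h2.and h3))
  refine ⟨N₀, fun N hN => ?_⟩
  obtain ⟨k1, k2, k3⟩ := hN₀ N hN
  have hN0 : (0 : ℝ) < N := by exact_mod_cast k3
  have ha0 : (1 : ℝ) ≤ an := by exact_mod_cast han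
  have ha1 : (0 : ℝ) < an := by linarith
  obtain ⟨x, hx⟩ : ∃ x, x = Real.log N := ⟨_, rfl⟩
  rw [← hx] at k1 k2 ⊢
  have hx1 : 1 ≤ x := (le_max_left _ _).trans k2
  have hx0 : 0 < x := by linarith
  have hy : Real.log ((an * N : ℕ) : ℝ) = Real.log an + x := by
    push_cast
    rw [Real.log_mul ha1.ne' hN0.ne', hx]
  have hla : 0 ≤ Real.log an := Real.log_nonneg ha0
  rw [hy]
  have hy2 : Real.log an + x ≤ 2 * x := by
    have := (le_max_right 1 (Real.log an)).trans k2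
    linarith
  have hpow : (Real.log an + x) ^ (C + ε / 2) ≤ x ^ (C + ε) := by
    calc (Real.log an + x) ^ (C + ε / 2) ≤ (2 * x) ^ (C + ε / 2) :=
          Real.rpow_le_rpow (by linarith) hy2 (by positivity)
      _ = 2 ^ (C + ε / 2) * x ^ (C + ε / 2) := Real.mul_rpow (by norm_num) hx0.le
      _ ≤ x ^ (ε / 2) * x ^ (C + ε / 2) :=
          mul_le_mul_of_nonneg_right k1 (Real.rpow_nonneg hx0.le _)
      _ = x ^ (C + ε) := by
          rw [← Real.rpow_add hx0]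
          congr 1
          ring
  have hp0 : 0 < (Real.log an + x) ^ (C + ε / 2) := Real.rpow_pos_of_pos (by linarith) _
  calc (N : ℝ) / x ^ (C + ε) ≤ N / (Real.log an + x) ^ (C + ε / 2) :=
        div_le_div_of_nonneg_left hN0.le hp0 hpow
    _ ≤ ((an * N : ℕ) : ℝ) / (Real.log an + x) ^ (C + ε / 2) := by
        refine div_le_div_of_nonneg_right ?_ hp0.le
        push_cast
        nlinarith

open Classical in
theorem divb {m S0 : ℕ} (h : ∀ k, k ^ 2 ∣ m → k ≤ S0) :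
    m.divisors.card ≤ S0 ^ 2 * 2 ^ m.primeFactors.card := by
  have hm : m ≠ 0 := by
    intro h0
    have := h (S0 + 1) (by rw [h0]; exact dvd_zero _)
    omega
  obtain ⟨b, a, hab, hbsq⟩ := Nat.sq_mul_squarefree m
  have ha0 : a ≠ 0 := by
    rintro rfl
    apply hm
    rw [← hab]; ring
  have hb0 : b ≠ 0 := hbsq.ne_zero
  have haS : a ≤ S0 := h a ⟨b, hab.symm⟩
  rw [← hab]
  calc (a ^ 2 * b).divisors.card ≤ (a ^ 2).divisors.card * b.divisors.card := by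
        rw [Nat.divisors_mul]
        exact Finset.card_mul_le
    _ ≤ S0 ^ 2 * 2 ^ (a ^ 2 * b).primeFactors.card := by
        refine Nat.mul_le_mul ?_ ?_
        · exact (Nat.card_divisors_le_self _).trans (Nat.pow_le_pow_left haS 2)
        · rw [Nat.card_divisors hb0]
          rw [Finset.prod_congr rfl fun p hp => by
            rw [Nat.factorization_eq_one_of_squarefree hbsq (Nat.prime_of_mem_primeFactors hp)
              (Nat.dvd_of_mem_primeFactors hp)], Finset.prod_const]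
          exact Nat.pow_le_pow_right two_pos (card_le_card
            (Nat.primeFactors_mono (Dvd.intro_left _ rfl) (mul_ne_zero (pow_ne_zero 2 ha0) hb0)))

/-- the property of the triples -/
def RR (q S0 : ℕ) (e₁ e₂ : ℤ) (e : Tr) : Prop := R4 q e₁ e₂ e ∧ ∀ k : ℕ, k ^ 2 ∣ NT e → k ≤ S0

theorem posT_RR {t c : ℤ} {q : ℕ} (hP : S_POST t c q) (hS : S_SQBT t c) : ∃ S0 : ℕ,
    ∀ e₁ e₂ : ℤ, (e₁ = 1 ∨ e₁ = -1) → (e₂ = 1 ∨ e₂ = -1) → PosT t c (RR q S0 e₁ e₂) := by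
  classical
  obtain ⟨κ1, k1, X1, h1⟩ := hP 1 1 (Or.inl rfl) (Or.inl rfl)
  obtain ⟨κ2, k2, X2, h2⟩ := hP 1 (-1) (Or.inl rfl) (Or.inr rfl)
  obtain ⟨κ3, k3, X3, h3⟩ := hP (-1) 1 (Or.inr rfl) (Or.inl rfl)
  obtain ⟨κ4, k4, X4, h4⟩ := hP (-1) (-1) (Or.inr rfl) (Or.inr rfl)
  obtain ⟨κ, hκ⟩ : ∃ κ, κ = min (min κ1 κ2) (min κ3 κ4) := ⟨_, rfl⟩
  have hκ0 : 0 < κ := by
    rw [hκ]
    exact lt_min (lt_min k1 k2) (lt_min k3 k4)
  obtain ⟨S0, X0, hX0⟩ := hS (κ / 2) (half_pos hκ0)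
  refine ⟨S0, ?_⟩
  have key : ∀ (e₁ e₂ : ℤ) (κ' X' : ℝ), κ ≤ κ' → (∀ X : ℝ, X' ≤ X →
      κ' * X ≤ (((tri t c X X).filter (R4 q e₁ e₂)).card : ℝ)) → PosT t c (RR q S0 e₁ e₂) := by
    intro e₁ e₂ κ' X' hk h
    refine ⟨κ / 2, half_pos hκ0, max (max X' X0) 0, fun X hX => ?_⟩
    have hX1 : X' ≤ X := (le_max_left _ _).trans ((le_max_left _ _).trans hX)
    have hX2 : X0 ≤ X := (le_max_right _ _).trans ((le_max_left _ _).trans hX)
    have hX3 : 0 ≤ X := (le_max_right _ _).trans hX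
    have a1 := h X hX1
    have a2 := hX0 X hX2
    have a3 : (tri t c X X).filter (R4 q e₁ e₂) ⊆ (tri t c X X).filter (RR q S0 e₁ e₂) ∪
        (tri t c X X).filter (fun e => ∃ k : ℕ, S0 < k ∧ k ^ 2 ∣ NT e) := by
      intro e he
      rw [mem_filter] at he
      rw [mem_union, mem_filter, mem_filter]
      by_cases hb : ∃ k : ℕ, S0 < k ∧ k ^ 2 ∣ NT e
      · exact Or.inr ⟨he.1, hb⟩
      · push Not at hb
        refine Or.inl ⟨he.1, he.2, fun k hk => ?_⟩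
        by_contra hc
        exact hb k (by omega) hk
    have a4 := (card_le_card a3).trans (card_union_le _ _)
    have a5 : (((tri t c X X).filter (R4 q e₁ e₂)).card : ℝ) ≤
        (((tri t c X X).filter (RR q S0 e₁ e₂)).card : ℝ) +
        (((tri t c X X).filter (fun e => ∃ k : ℕ, S0 < k ∧ k ^ 2 ∣ NT e)).card : ℝ) := by
      exact_mod_cast a4
    have a6 : κ * X ≤ κ' * X := mul_le_mul_of_nonneg_right hk hX3
    have a7 : κ / 2 * X ≤ (((tri t c X X).filter (RR q S0 e₁ e₂)).card : ℝ) := by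
      linarith
    exact a7
  intro e₁ e₂ he₁ he₂
  have m1 : κ ≤ κ1 := hκ ▸ (min_le_left _ _).trans (min_le_left _ _)
  have m2 : κ ≤ κ2 := hκ ▸ (min_le_left _ _).trans (min_le_right _ _)
  have m3 : κ ≤ κ3 := hκ ▸ (min_le_right _ _).trans (min_le_left _ _)
  have m4 : κ ≤ κ4 := hκ ▸ (min_le_right _ _).trans (min_le_right _ _)
  rcases he₁ with rfl | rfl <;> rcases he₂ with rfl | rfl
  · exact key _ _ κ1 X1 m1 h1
  · exact key _ _ κ2 X2 m2 h2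
  · exact key _ _ κ3 X3 m3 h3
  · exact key _ _ κ4 X4 m4 h4

theorem finalg : S_FINALG := by
  classical
  intro a b c ha q hq haq hP hS hC
  obtain ⟨an, han⟩ : ∃ an : ℕ, (an : ℤ) = a := ⟨a.toNat, Int.toNat_of_nonneg ha.le⟩
  have han1 : 1 ≤ an := by omega
  have hanq : an ∣ q := by
    rw [← han] at haq
    exact_mod_cast haq
  obtain ⟨S0, hpos⟩ := posT_RR hP hS
  -- the constants `L`
  have hL : ∀ e₁ e₂ : ℤ, ∃ L : ℕ, (e₁ = 1 ∨ e₁ = -1) → (e₂ = 1 ∨ e₂ = -1) →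
      (∀ ε : ℝ, 0 < ε → ∃ N₀ : ℕ, ∀ N : ℕ, N₀ ≤ N →
        (N : ℝ) / Real.log N ^ (2 * Real.log 2 + ε) ≤
        (Set.ncard {n : ℕ | 1 ≤ n ∧ n ≤ N ∧ ∃ d d' : ℕ, (d : ℤ) * d' = Qp b (a * c) n ∧
          d ≤ L * n ∧ d' ≤ L * n ∧ RR q S0 (e₁ * lam an) e₂ (d, (n : ℤ), d')} : ℝ)) ∧
      ∃ κ : ℝ, 0 < κ ∧ ∃ N₀ : ℕ, ∀ N : ℕ, N₀ ≤ N → κ * N ≤
        (Set.ncard {p : ℕ × ℕ | 1 ≤ p.1 ∧ p.1 ≤ N ∧ 1 ≤ p.2 ∧ p.2 ≤ N ∧
          ∃ n : ℕ, 1 ≤ n ∧ (p.1 : ℤ) * p.2 = Qp b (a * c) n ∧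
            RR q S0 (e₁ * lam an) e₂ (p.1, (n : ℤ), p.2)} : ℝ) := by
    intro e₁ e₂
    by_cases h : (e₁ = 1 ∨ e₁ = -1) ∧ (e₂ = 1 ∨ e₂ = -1)
    · obtain ⟨L, hL⟩ := hC (RR q S0 (e₁ * lam an) e₂) (S0 ^ 2) (fun e he => divb he.2)
        (hpos _ _ (by
          rcases h.1 with h1 | h1 <;> rcases lam_pm an with h2 | h2 <;> rw [h1, h2] <;> simp) h.2)
      exact ⟨L, fun _ _ => hL⟩
    · exact ⟨0, fun h1 h2 => absurd ⟨h1, h2⟩ h⟩
  choose L hL using hL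
  obtain ⟨LL, hLL⟩ : ∃ LL, LL = L 1 1 + L 1 (-1) + L (-1) 1 + L (-1) (-1) := ⟨_, rfl⟩
  refine ⟨S0 + LL * an, fun e₁ e₂ he₁ he₂ => ?_⟩
  have hle : L e₁ e₂ ≤ LL := by
    rcases he₁ with rfl | rfl <;> rcases he₂ with rfl | rfl <;> omega
  obtain ⟨g1, κ, hκ, N₂, g2⟩ := hL e₁ e₂ he₁ he₂
  have hLn : ∀ n' : ℕ, L e₁ e₂ * (an * n') ≤ (S0 + LL * an) * n' := by
    intro n'
    calc L e₁ e₂ * (an * n') ≤ LL * (an * n') := Nat.mul_le_mul_right _ hle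
      _ = LL * an * n' := by ring
      _ ≤ (S0 + LL * an) * n' := Nat.mul_le_mul_right _ (Nat.le_add_left _ _)
  refine ⟨?_, κ, hκ, N₂, ?_⟩
  · intro ε hε
    obtain ⟨N₀, hN₀⟩ := g1 (ε / 2) (half_pos hε)
    obtain ⟨N₁, hN₁⟩ := analytic an han1 (2 * Real.log 2) ε (by positivity) hε
    refine ⟨max N₀ N₁, fun N hN => ?_⟩
    have b1 := hN₁ N ((le_max_right _ _).trans hN)
    have b2 := hN₀ (an * N) (((le_max_left _ _).trans hN).trans
      (Nat.le_mul_of_pos_left _ (by omega)))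
    refine b1.trans (b2.trans ?_)
    have hfin : Set.Finite {n : ℕ | 1 ≤ n ∧ n ≤ N ∧ ∃ d d' : ℕ,
        (d : ℤ) * d' = a * (n : ℤ) ^ 2 + b * n + c ∧
        d ≤ (S0 + LL * an) * n ∧ d' ≤ (S0 + LL * an) * n ∧
        (∀ k : ℕ, k ^ 2 ∣ d * d' → k ≤ S0 + LL * an) ∧
        (-1 : ℤ) ^ ArithmeticFunction.cardFactors d = e₁ ∧
        (-1 : ℤ) ^ ArithmeticFunction.cardFactors d' = e₂} :=
      (Set.finite_Icc 1 N).subset fun n hn => ⟨hn.1, hn.2.1⟩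
    have hncard := Set.ncard_le_ncard_of_injOn (s := {n : ℕ | 1 ≤ n ∧ n ≤ an * N ∧ ∃ d d' : ℕ,
        (d : ℤ) * d' = Qp b (a * c) n ∧
          d ≤ L e₁ e₂ * n ∧ d' ≤ L e₁ e₂ * n ∧ RR q S0 (e₁ * lam an) e₂ (d, (n : ℤ), d')})
      (fun n => n / an) (fun n hn => by
        obtain ⟨hn1, hnN, d, d', hdd, hd, hd', hR, hk⟩ := hn
        obtain ⟨n', d1, t1, t2, t3, t4, t5, t6, t7, t8, t9⟩ :=
          transfer han han1 hanq S0 hdd hn1 hR hk
        have e : n / an = n' := by rw [t1, Nat.mul_div_cancel_left _ (by omega)]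
        simp only [e]
        refine ⟨t3, ?_, d1, d', t6, ?_, ?_, ?_, t7, t8⟩
        · rw [t1] at hnN
          exact Nat.le_of_mul_le_mul_left hnN (by omega)
        · refine le_trans ?_ (hLn n')
          rw [← t1]
          refine le_trans ?_ hd
          rw [t2]
          exact Nat.le_mul_of_pos_left _ (by omega)
        · rw [t1] at hd'
          exact hd'.trans (hLn n')
        · intro k hk'
          exact (t9 k hk').trans (Nat.le_add_right _ _)) (by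
        intro n hn m hm hnm
        obtain ⟨hn1, -, d, d', hdd, -, -, hR, hk⟩ := hn
        obtain ⟨n', -, t1, -⟩ := transfer han han1 hanq S0 hdd hn1 hR hk
        obtain ⟨hm1, -, d, d', hdd, -, -, hR, hk⟩ := hm
        obtain ⟨m', -, u1, -⟩ := transfer han han1 hanq S0 hdd hm1 hR hk
        simp only [t1, u1, Nat.mul_div_cancel_left _ (show 0 < an by omega)] at hnm
        rw [t1, u1, hnm]) hfin
    exact_mod_cast hncard
  · intro N hN
    refine (g2 N hN).trans ?_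
    have hfin : Set.Finite {p : ℕ × ℕ | 1 ≤ p.1 ∧ p.1 ≤ N ∧ 1 ≤ p.2 ∧ p.2 ≤ N ∧
      (∃ n : ℕ, 1 ≤ n ∧ (p.1 : ℤ) * p.2 = a * (n : ℤ) ^ 2 + b * n + c) ∧
      (∀ k : ℕ, k ^ 2 ∣ p.1 * p.2 → k ≤ S0 + LL * an) ∧
      (-1 : ℤ) ^ ArithmeticFunction.cardFactors p.1 = e₁ ∧
      (-1 : ℤ) ^ ArithmeticFunction.cardFactors p.2 = e₂} :=
      ((Set.finite_Icc 1 N).prod (Set.finite_Icc 1 N)).subset fun p hp =>
        ⟨⟨hp.1, hp.2.1⟩, ⟨hp.2.2.1, hp.2.2.2.1⟩⟩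
    have hncard := Set.ncard_le_ncard_of_injOn
      (s := {p : ℕ × ℕ | 1 ≤ p.1 ∧ p.1 ≤ N ∧ 1 ≤ p.2 ∧ p.2 ≤ N ∧
          ∃ n : ℕ, 1 ≤ n ∧ (p.1 : ℤ) * p.2 = Qp b (a * c) n ∧
            RR q S0 (e₁ * lam an) e₂ (p.1, (n : ℤ), p.2)})
      (fun p => (p.1 / an, p.2)) (fun p hp => by
        obtain ⟨p1, p2, p3, p4, n, hn1, hdd, hR, hk⟩ := hp
        obtain ⟨n', d1, t1, t2, t3, t4, t5, t6, t7, t8, t9⟩ :=
          transfer han han1 hanq S0 hdd hn1 hR hk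
        have e : p.1 / an = d1 := by rw [t2, Nat.mul_div_cancel_left _ (by omega)]
        simp only [e]
        refine ⟨t4, ?_, t5, p4, ⟨n', t3, t6⟩, ?_, t7, t8⟩
        · refine le_trans ?_ p2
          rw [t2]
          exact Nat.le_mul_of_pos_left _ (by omega)
        · intro k hk'
          exact (t9 k hk').trans (Nat.le_add_right _ _)) (by
        intro p hp p' hp' hpp
        obtain ⟨-, -, -, -, n, hn1, hdd, hR, hk⟩ := hp
        obtain ⟨n', d1, t1, t2, -⟩ := transfer han han1 hanq S0 hdd hn1 hR hk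
        obtain ⟨-, -, -, -, m, hm1, hdd, hR, hk⟩ := hp'
        obtain ⟨m', d2, u1, u2, -⟩ := transfer han han1 hanq S0 hdd hm1 hR hk
        rw [Prod.mk.injEq] at hpp
        simp only [t2, u2, Nat.mul_div_cancel_left _ (show 0 < an by omega)] at hpp
        ext
        · rw [t2, u2, hpp.1]
        · exact hpp.2) hfin
    exact_mod_cast hncard

end Pool.Agent.W193.G
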